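import Pool.Agent.Helper7.UNI.Lo
import Pool.Agent.Helper99.ZB.Zero

/-!
# Theorem D: decay away from the positive axis for all positive words, no windows

From helper29's determinant bound `UD` and the lower bound `lo`.
-/

set_option autoImplicit false

namespace Pool.Agent.Helper7.UNI

open Polynomial Pool.Agent.Helper76.Conway.Top Pool.Agent.Helper99.ZB

/-- helper29's determinant bound -/
def UD : Prop := ∀ (s : ℂ) (σ : ℝ), s ≠ 0 → ‖s‖ < 1 → 1 ≤ σ →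
  1 + ‖s‖ ^ 4 + 2 * s.im ^ 2 ≤ σ ^ 2 + ‖s‖ ^ 4 / σ ^ 2 → ∀ (n : ℕ) (w : List ℕ), (∀ a ∈ w, a < n) →
    ‖Matrix.det (1 - W s n w)‖ ≤ 2 ^ n * σ ^ w.length

/-- the larger root of `Y - 1 / Y = √X` -/
noncomputable def Yf (X : ℝ) : ℝ := (√X + √(X + 4)) / 2

theorem Yf_sq {X : ℝ} (hX : 0 ≤ X) : Yf X ^ 2 = 1 + √X * Yf X := by
  unfold Yf
  have h1 := Real.sq_sqrt hX
  have h2 := Real.sq_sqrt (by linarith : (0:ℝ) ≤ X + 4)
  linear_combination (1 / 4 : ℝ) * h2 - (1 / 4 : ℝ) * h1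

theorem Yf_ge_one {X : ℝ} (hX : 0 ≤ X) : 1 ≤ Yf X := by
  unfold Yf
  have h1 : 2 ≤ √(X + 4) := by
    rw [show (2:ℝ) = √4 by rw [show (4:ℝ) = 2 ^ 2 by norm_num]; exact (Real.sqrt_sq (by norm_num)).symm]
    exact Real.sqrt_le_sqrt (by linarith)
  have h2 := Real.sqrt_nonneg X
  linarith

theorem Yf_mono {X Z : ℝ} (h : X ≤ Z) : Yf X ≤ Yf Z := by
  unfold Yf
  have h1 := Real.sqrt_le_sqrt h
  have h2 := Real.sqrt_le_sqrt (by linarith : X + 4 ≤ Z + 4)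
  linarith

theorem Yf_gap {X Z : ℝ} (h : X ≤ Z) : Yf X ≤ Yf Z - (√Z - √X) / 2 := by
  unfold Yf
  have h2 := Real.sqrt_le_sqrt (by linarith : X + 4 ≤ Z + 4)
  linarith

section words

variable {G : ℕ → Type} [∀ n, Group (G n)] {sg : ∀ n, ℕ → G n} {N : ∀ n, G n → ℤ[X]}

/-- the upper bound, with the real part of `z` as a weight -/
theorem upper (hUD : UD) (h : Mk G sg N) {n : ℕ} {w : List ℕ} (hw : ∀ a ∈ w, a < n) (z : ℂ) :
    |z.re| * ‖aeval z (N n (V (sg n) w))‖ ≤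
      2 ^ n * ‖z‖ * Yf (‖z‖ ^ 2 - 2 * z.im ^ 2 / (‖z‖ ^ 2 + 4)) ^ w.length := by
  obtain ⟨Z, hZ⟩ : ∃ Z, Z = ‖z‖ ^ 2 := ⟨_, rfl⟩
  have hZ0 : 0 ≤ Z := by rw [hZ]; positivity
  have hZ2 : Z = z.re ^ 2 + z.im ^ 2 := by
    rw [hZ, ← Complex.normSq_eq_norm_sq, Complex.normSq_apply]
    ring
  have hYpos : ∀ X : ℝ, 0 ≤ Yf X := by
    intro X
    unfold Yf
    positivity
  rcases eq_or_ne z.re 0 with h0 | hre
  · rw [h0, abs_zero, zero_mul]
    have := hYpos (‖z‖ ^ 2 - 2 * z.im ^ 2 / (‖z‖ ^ 2 + 4))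
    positivity
  obtain ⟨s, hs0, hs1, hzs⟩ := exists_s z
  obtain ⟨a, ha⟩ : ∃ a, a = ‖s‖ := ⟨_, rfl⟩
  have ha0 : 0 < a := by rw [ha]; exact norm_pos_iff.2 hs0
  have hna : s.re ^ 2 + s.im ^ 2 = a ^ 2 := by
    rw [ha, ← Complex.normSq_eq_norm_sq, Complex.normSq_apply]
    ring
  have hinv : s⁻¹ = (((a ^ 2)⁻¹ : ℝ) : ℂ) * (starRingEnd ℂ) s := by
    rw [Complex.inv_def, Complex.normSq_eq_norm_sq, ← ha, mul_comm]
  have hzre : z.re = s.re * (1 - a ^ 2) / a ^ 2 := by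
    rw [hzs, Complex.sub_re, hinv, Complex.re_ofReal_mul, Complex.conj_re]
    field_simp
  have hzim : z.im = -(s.im * (1 + a ^ 2) / a ^ 2) := by
    rw [hzs, Complex.sub_im, hinv, Complex.im_ofReal_mul, Complex.conj_im]
    field_simp
    ring
  have ha1 : a < 1 := by
    rw [← ha] at hs1
    rcases lt_or_eq_of_le hs1 with h1 | h1
    · exact h1
    · rw [hzre, h1] at hre
      norm_num at hre
  obtain ⟨S, hS⟩ : ∃ S, S = s.im ^ 2 / a ^ 2 := ⟨_, rfl⟩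
  have hSa : s.im ^ 2 = S * a ^ 2 := by rw [hS]; field_simp
  have hS0 : 0 ≤ S := by rw [hS]; positivity
  have hre2 : s.re ^ 2 = (1 - S) * a ^ 2 := by linarith
  obtain ⟨b, hb⟩ : ∃ b, b = a⁻¹ - a := ⟨_, rfl⟩
  have hba : b * a = 1 - a ^ 2 := by rw [hb]; field_simp
  have hb0 : 0 < b := by
    have : 0 < b * a := by rw [hba]; nlinarith
    exact (mul_pos_iff_of_pos_right ha0).1 this
  have hzr2 : z.re ^ 2 * a ^ 2 = (1 - S) * (1 - a ^ 2) ^ 2 := by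
    rw [hzre, div_pow, mul_pow, hre2]
    field_simp
  have hzi2 : z.im ^ 2 * a ^ 2 = S * (1 + a ^ 2) ^ 2 := by
    rw [hzim, neg_sq, div_pow, mul_pow, hSa]
    field_simp
  have hZb : Z = b ^ 2 + 4 * S := by
    have h1 : Z * a ^ 2 = (b ^ 2 + 4 * S) * a ^ 2 := by
      have e1 : b ^ 2 * a ^ 2 = (1 - a ^ 2) ^ 2 := by rw [← mul_pow, hba]
      rw [hZ2]
      linear_combination hzr2 + hzi2 - e1
    exact mul_right_cancel₀ (by positivity) h1
  have hzi3 : 2 * z.im ^ 2 = 2 * S * (b ^ 2 + 4) := by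
    have h1 : 2 * z.im ^ 2 * a ^ 2 = 2 * S * (b ^ 2 + 4) * a ^ 2 := by
      have e1 : b ^ 2 * a ^ 2 = (1 - a ^ 2) ^ 2 := by rw [← mul_pow, hba]
      linear_combination 2 * hzi2 - 2 * S * e1
    exact mul_right_cancel₀ (by positivity) h1
  -- the root
  obtain ⟨X, hX⟩ : ∃ X, X = Z - 2 * S := ⟨_, rfl⟩
  have hX0 : 0 ≤ X := by rw [hX, hZb]; nlinarith [sq_nonneg b]
  have hXle : X ≤ Z - 2 * z.im ^ 2 / (Z + 4) := by
    rw [hX, hzi3]
    have h1 : 2 * S * (b ^ 2 + 4) / (Z + 4) ≤ 2 * S := by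
      rw [div_le_iff₀ (by positivity), hZb]
      nlinarith
    linarith
  obtain ⟨Y, hY⟩ : ∃ Y, Y = Yf X := ⟨_, rfl⟩
  have hY1 : 1 ≤ Y := by rw [hY]; exact Yf_ge_one hX0
  have hYs : Y ^ 2 = 1 + √X * Y := by rw [hY]; exact Yf_sq hX0
  have hbX : b ≤ √X := by
    apply Real.le_sqrt_of_sq_le
    rw [hX, hZb]
    linarith
  have hYa : 1 ≤ Y * a := by
    by_contra hlt
    push Not at hlt
    -- `Y < 1 / a` gives `Y - 1 / Y < b`
    have h1 : Y < a⁻¹ := by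
      rw [lt_inv_comm₀ (by linarith) ha0]
      rw [lt_inv_comm₀ ha0 (by linarith)]
      rwa [← one_div, lt_div_iff₀ ha0]
    have h2 : a < Y⁻¹ := (lt_inv_comm₀ ha0 (by linarith)).2 h1
    have h3 : √X = Y - Y⁻¹ := by
      have hY0 : Y ≠ 0 := by positivity
      field_simp
      linarith
    rw [h3, hb] at hbX
    linarith
  have hYY : Y ^ 2 + (Y ^ 2)⁻¹ = X + 2 := by
    have hY0 : Y ≠ 0 := by positivity
    have h3 : √X = Y - Y⁻¹ := by
      field_simp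
      linarith
    have h4 := Real.sq_sqrt hX0
    rw [h3] at h4
    have h5 : (Y - Y⁻¹) ^ 2 = Y ^ 2 + (Y ^ 2)⁻¹ - 2 := by
      field_simp
      ring
    linarith
  have hdet := hUD s (Y * a) hs0 (by rwa [← ha]) hYa (by
    rw [← ha, hSa]
    have e1 : (Y * a) ^ 2 + a ^ 4 / (Y * a) ^ 2 = a ^ 2 * (Y ^ 2 + (Y ^ 2)⁻¹) := by
      have hY0 : Y ≠ 0 := by positivity
      field_simp
    rw [e1, hYY, hX, hZb]
    have e2 : b ^ 2 * a ^ 2 = (1 - a ^ 2) ^ 2 := by rw [← mul_pow, hba]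
    have e3 : a ^ 2 * (b ^ 2 + 4 * S - 2 * S + 2) = 1 + a ^ 4 + 2 * (S * a ^ 2) := by
      linear_combination e2
    rw [e3]) n w hw
  have hev := eval_eq h hs0 (by rwa [← ha]) n w hw
  rw [← hzs] at hev
  obtain ⟨A, hA⟩ : ∃ A, A = ‖aeval z (N n (V (sg n) w))‖ := ⟨_, rfl⟩
  have hA0 : 0 ≤ A := by rw [hA]; exact norm_nonneg _
  rw [← hev, norm_mul, norm_mul, norm_pow, ← hA, ← ha, mul_pow] at hdet
  -- `‖U‖`
  have hU : (1 - a ^ 2) ≤ ‖U s n‖ * (a ^ n * (a * ‖z‖)) := by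
    have h1 : ‖(1 : ℂ) - s ^ 2‖ = a * ‖z‖ := by
      have : (1 : ℂ) - s ^ 2 = s * z := by
        rw [hzs]
        field_simp
      rw [this, norm_mul, ha]
    have h2 : (1 : ℂ) - s ^ 2 ≠ 0 := by
      intro h3
      have h4 : ‖s ^ 2‖ = 1 := by rw [← sub_eq_zero.1 h3]; simp
      rw [norm_pow, ← ha] at h4
      nlinarith
    have h3 : U s n * (s ^ n * (1 - s ^ 2)) = 1 - s ^ (2 * (n + 1)) := by
      unfold U
      exact div_mul_cancel₀ _ (mul_ne_zero (pow_ne_zero _ hs0) h2)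
    have h4 : ‖U s n‖ * (a ^ n * (a * ‖z‖)) = ‖(1 : ℂ) - s ^ (2 * (n + 1))‖ := by
      rw [← h3, norm_mul, norm_mul, norm_pow, h1, ← ha]
    rw [h4]
    have h5 : ‖(1 : ℂ)‖ - ‖s ^ (2 * (n + 1))‖ ≤ ‖(1 : ℂ) - s ^ (2 * (n + 1))‖ := norm_sub_norm_le _ _
    rw [norm_one, norm_pow, ← ha] at h5
    have h6 : a ^ (2 * (n + 1)) ≤ a ^ 2 := pow_le_pow_of_le_one ha0.le ha1.le (by omega)
    linarith
  have haL : 0 < a ^ w.length := by positivity
  have h5 : A * ‖U s n‖ ≤ 2 ^ n * Y ^ w.length := by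
    refine le_of_mul_le_mul_right ?_ haL
    calc A * ‖U s n‖ * a ^ w.length = A * a ^ w.length * ‖U s n‖ := by ring
      _ ≤ 2 ^ n * (Y ^ w.length * a ^ w.length) := hdet
      _ = _ := by ring
  have hre1 : |z.re| * a ≤ 1 - a ^ 2 := by
    rw [hzre, abs_div, abs_mul, abs_of_pos (by nlinarith : 0 < 1 - a ^ 2), abs_of_pos (by positivity : 0 < a ^ 2),
      div_mul_eq_mul_div, div_le_iff₀ (by positivity)]
    have h6 : |s.re| ≤ a := by rw [ha]; exact Complex.abs_re_le_norm s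
    have h7 : 0 < 1 - a ^ 2 := by nlinarith
    have h8 : |s.re| * (1 - a ^ 2) * a ≤ a * (1 - a ^ 2) * a := by
      refine mul_le_mul_of_nonneg_right ?_ ha0.le
      exact mul_le_mul_of_nonneg_right h6 h7.le
    linarith
  have h6 : |z.re| * A ≤ 2 ^ n * ‖z‖ * Y ^ w.length := by
    refine le_of_mul_le_mul_right ?_ ha0
    have han : a ^ n ≤ 1 := pow_le_one₀ ha0.le ha1.le
    calc |z.re| * A * a = (|z.re| * a) * A := by ring
      _ ≤ (1 - a ^ 2) * A := mul_le_mul_of_nonneg_right hre1 hA0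
      _ ≤ (‖U s n‖ * (a ^ n * (a * ‖z‖))) * A := mul_le_mul_of_nonneg_right hU hA0
      _ = (A * ‖U s n‖) * (a ^ n * (a * ‖z‖)) := by ring
      _ ≤ (2 ^ n * Y ^ w.length) * (1 * (a * ‖z‖)) := by
          refine mul_le_mul h5 (mul_le_mul_of_nonneg_right han (by positivity)) (by positivity) (by positivity)
      _ = 2 ^ n * ‖z‖ * Y ^ w.length * a := by ring
  rw [← hA, ← hZ]
  refine h6.trans ?_
  refine mul_le_mul_of_nonneg_left ?_ (by positivity)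
  refine pow_le_pow_left₀ (by linarith) ?_ _
  rw [hY]
  exact Yf_mono hXle

end words

end Pool.Agent.Helper7.UNI
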