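import Pool.Agent.Helper7.UNI.Dec

/-!
# Theorem D in closed form

`‖∇(z)‖ ≤ 96 (r² + 1) (2 R² / r) ^ n exp (- L r (1 - cos 2θ) / (64 R (r² + 1))) ∇(r)`, `r = ‖z‖`, `R - 1 / R = r`,
for all positive words with `L` letters and `n` generators.
-/

set_option autoImplicit false

namespace Pool.Agent.Helper7.UNI

open Polynomial Pool.Agent.Helper76.Conway.Top Pool.Agent.Helper99.ZB

theorem Yf_nonneg (X : ℝ) : 0 ≤ Yf X := by
  unfold Yf
  positivity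

theorem ypow {ρ g X : ℝ} (hρ : 0 < ρ) (hg : 0 ≤ g) (hgρ : g ≤ ρ) (hX : X ≤ ρ ^ 2 - 2 * ρ * g) (L : ℕ) :
    Yf X ^ L ≤ Yf (ρ ^ 2) ^ L * Real.exp (-(L * (g / (2 * Yf (ρ ^ 2))))) := by
  have hR := Yf_ge_one (sq_nonneg ρ)
  obtain ⟨R, hRe⟩ : ∃ R, R = Yf (ρ ^ 2) := ⟨_, rfl⟩
  rw [← hRe] at hR ⊢
  have h1 : √X ≤ ρ - g := Real.sqrt_le_iff.2 ⟨by linarith, by nlinarith [sq_nonneg g]⟩
  have h2 : X ≤ ρ ^ 2 := by nlinarith
  have h3 := Yf_gap h2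
  rw [Real.sqrt_sq hρ.le, ← hRe] at h3
  have h4 : Yf X ≤ R * Real.exp (-(g / (2 * R))) := by
    have h5 := Real.add_one_le_exp (-(g / (2 * R)))
    have h6 : R * (-(g / (2 * R)) + 1) = R - g / 2 := by
      field_simp
      ring
    have h7 := mul_le_mul_of_nonneg_left h5 (by linarith : 0 ≤ R)
    linarith
  calc Yf X ^ L ≤ (R * Real.exp (-(g / (2 * R)))) ^ L := pow_le_pow_left₀ (Yf_nonneg X) h4 L
    _ = R ^ L * Real.exp (-(L * (g / (2 * R)))) := by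
      rw [mul_pow, ← Real.exp_nat_mul]
      congr 2
      ring

section words

variable {G : ℕ → Type} [∀ n, Group (G n)] {sg : ∀ n, ℕ → G n} {N : ∀ n, G n → ℤ[X]}

/-- **Theorem D**, upper bound in terms of `R ^ L`. -/
theorem upperD (hUD : UD) (h : Mk G sg N) {n : ℕ} {w : List ℕ} (hw : ∀ a ∈ w, a < n) (z : ℂ) (hz : z ≠ 0) :
    ‖aeval z (N n (V (sg n) w))‖ ≤ 96 * (‖z‖ ^ 2 + 1) * 2 ^ n * (Yf (‖z‖ ^ 2) ^ w.length *
      Real.exp (-(w.length * (‖z‖ * (1 - Real.cos (2 * z.arg)) / (64 * Yf (‖z‖ ^ 2) * (‖z‖ ^ 2 + 1)))))) := by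
  obtain ⟨ρ, hρ⟩ : ∃ ρ, ρ = ‖z‖ := ⟨_, rfl⟩
  have hρ0 : 0 < ρ := by rw [hρ]; exact norm_pos_iff.2 hz
  obtain ⟨R, hR⟩ : ∃ R, R = Yf (ρ ^ 2) := ⟨_, rfl⟩
  have hR1 : 1 ≤ R := by rw [hR]; exact Yf_ge_one (sq_nonneg ρ)
  obtain ⟨c, hc⟩ : ∃ c, c = 1 - Real.cos (2 * z.arg) := ⟨_, rfl⟩
  have hρ2 : ρ ^ 2 = z.re ^ 2 + z.im ^ 2 := by
    rw [hρ, ← Complex.normSq_eq_norm_sq, Complex.normSq_apply]
    ring
  have hcim : c * ρ ^ 2 = 2 * z.im ^ 2 := by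
    rw [hc, Pool.Agent.Helper29.EV2.cos_two_arg z hz, ← hρ]
    have e : (z ^ 2).re = z.re ^ 2 - z.im ^ 2 := by
      rw [pow_two, Complex.mul_re]
      ring
    rw [e]
    field_simp
    linarith
  have hc0 : 0 ≤ c := by rw [hc]; linarith [Real.cos_le_one (2 * z.arg)]
  have hc2 : c ≤ 2 := by rw [hc]; linarith [Real.neg_one_le_cos (2 * z.arg)]
  obtain ⟨A, hA⟩ : ∃ A, A = ‖aeval z (N n (V (sg n) w))‖ := ⟨_, rfl⟩
  have hA0 : 0 ≤ A := by rw [hA]; exact norm_nonneg _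
  rw [← hρ, ← hR, ← hc, ← hA]
  obtain ⟨L, hL⟩ : ∃ L, L = w.length := ⟨_, rfl⟩
  rw [← hL]
  obtain ⟨E, hE⟩ : ∃ E, E = Real.exp (-(L * (ρ * c / (64 * R * (ρ ^ 2 + 1))))) := ⟨_, rfl⟩
  rw [← hE]
  obtain ⟨D, hD⟩ : ∃ D, D = ρ / (24 * (ρ ^ 2 + 1)) := ⟨_, rfl⟩
  have hD0 : 0 < D := by rw [hD]; positivity
  have hDe : D * (24 * (ρ ^ 2 + 1)) = ρ := by rw [hD]; exact div_mul_cancel₀ _ (by positivity)
  have hDρ : 24 * D ≤ ρ := by nlinarith [mul_nonneg hD0.le (sq_nonneg ρ)]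
  rcases le_or_gt D |z.re| with hcase | hcase
  · -- far from the imaginary axis
    have h1 := upper hUD h hw z
    rw [← hρ, ← hA, ← hL] at h1
    obtain ⟨g, hg⟩ : ∃ g, g = z.im ^ 2 / (ρ * (ρ ^ 2 + 4)) := ⟨_, rfl⟩
    have hg0 : 0 ≤ g := by rw [hg]; positivity
    have hgρ : g ≤ ρ := by
      rw [hg, div_le_iff₀ (by positivity)]
      have : z.im ^ 2 ≤ ρ ^ 2 := by rw [hρ2]; linarith [sq_nonneg z.re]
      nlinarith [sq_nonneg (ρ ^ 2), sq_nonneg ρ]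
    have h2 := ypow (X := ρ ^ 2 - 2 * z.im ^ 2 / (ρ ^ 2 + 4)) hρ0 hg0 hgρ (by
      rw [hg]
      apply le_of_eq
      field_simp) L
    rw [← hR] at h2
    have h3 : Real.exp (-(L * (g / (2 * R)))) ≤ E := by
      rw [hE]
      apply Real.exp_le_exp.2
      apply neg_le_neg
      refine mul_le_mul_of_nonneg_left ?_ (Nat.cast_nonneg _)
      rw [hg, div_div, div_le_div_iff₀ (by positivity) (by positivity)]
      have h4 : z.im ^ 2 = c * ρ ^ 2 / 2 := by linarith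
      rw [h4]
      have h5 : 0 ≤ ρ ^ 2 * c * R * ρ * (ρ ^ 2 * 60 + 48) := by positivity
      nlinarith [h5]
    have h6 : D * A ≤ 2 ^ n * ρ * (R ^ L * E) := by
      calc D * A ≤ |z.re| * A := mul_le_mul_of_nonneg_right hcase hA0
        _ ≤ _ := h1
        _ ≤ 2 ^ n * ρ * (R ^ L * E) := by
          refine mul_le_mul_of_nonneg_left ?_ (by positivity)
          exact h2.trans (mul_le_mul_of_nonneg_left h3 (by positivity))
    have h7 : 0 ≤ 2 ^ n * (R ^ L * E) := by rw [hE]; positivity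
    have h8 : A * ρ ≤ 24 * (ρ ^ 2 + 1) * (2 ^ n * (R ^ L * E)) * ρ := by
      have e1 : A * ρ = (24 * (ρ ^ 2 + 1)) * (D * A) := by
        conv_lhs => rw [← hDe]
        ring
      rw [e1]
      have h9 := mul_le_mul_of_nonneg_left h6 (by positivity : 0 ≤ 24 * (ρ ^ 2 + 1))
      refine h9.trans (le_of_eq ?_)
      ring
    have h9 := le_of_mul_le_mul_right h8 hρ0
    have h10 : 0 ≤ (ρ ^ 2 + 1) * (2 ^ n * (R ^ L * E)) := by positivity
    calc A ≤ 24 * (ρ ^ 2 + 1) * (2 ^ n * (R ^ L * E)) := h9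
      _ ≤ 96 * (ρ ^ 2 + 1) * 2 ^ n * (R ^ L * E) := by nlinarith
  · -- near the imaginary axis
    obtain ⟨z1, hz1⟩ : ∃ z1 : ℂ, z1 = (z.im : ℂ) * Complex.I := ⟨_, rfl⟩
    have hz1re : z1.re = 0 := by rw [hz1]; simp
    have hz1im : z1.im = z.im := by rw [hz1]; simp
    obtain ⟨f, hf⟩ : ∃ f : ℂ → ℂ, f = fun ζ => aeval ζ (N n (V (sg n) w)) * ((ζ - z1) ^ 2 + (D : ℂ) ^ 2) := ⟨_, rfl⟩
    obtain ⟨g, hg⟩ : ∃ g, g = ρ / (16 * (ρ ^ 2 + 1)) := ⟨_, rfl⟩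
    have hg0 : 0 ≤ g := by rw [hg]; positivity
    have hgρ : g ≤ ρ := by
      rw [hg, div_le_iff₀ (by positivity)]
      nlinarith [sq_nonneg ρ, mul_nonneg hρ0.le (sq_nonneg ρ)]
    have hexp : Real.exp (-(L * (g / (2 * R)))) ≤ E := by
      rw [hE]
      apply Real.exp_le_exp.2
      apply neg_le_neg
      refine mul_le_mul_of_nonneg_left ?_ (Nat.cast_nonneg _)
      rw [hg, div_div, div_le_div_iff₀ (by positivity) (by positivity)]
      have h5 : 0 ≤ ρ * R * (ρ ^ 2 + 1) * (2 - c) := mul_nonneg (by positivity) (by linarith)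
      nlinarith [h5]
    have hfr : ∀ ζ ∈ frontier (Metric.ball z1 D), ‖f ζ‖ ≤ 2 * D * (2 ^ n * (2 * ρ) * (R ^ L * E)) := by
      intro ζ hζ
      rw [frontier_ball z1 hD0.ne', Metric.mem_sphere, dist_eq_norm] at hζ
      have h1 : ‖(ζ - z1) ^ 2 + (D : ℂ) ^ 2‖ = 2 * D * |ζ.re| := by
        have e1 : ((D : ℂ)) ^ 2 = (ζ - z1) * (starRingEnd ℂ) (ζ - z1) := by
          rw [Complex.mul_conj, Complex.normSq_eq_norm_sq, hζ]
          push_cast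
          rfl
        have e2 : (ζ - z1) ^ 2 + (D : ℂ) ^ 2 = (ζ - z1) * (((2 * (ζ - z1).re : ℝ)) : ℂ) := by
          rw [e1, ← Complex.add_conj]
          ring
        rw [e2, norm_mul, hζ, Complex.norm_real, Real.norm_eq_abs, Complex.sub_re, hz1re, sub_zero, abs_mul, abs_two]
        ring
      have h2 := upper hUD h hw ζ
      have hζn : ‖ζ‖ ≤ ρ + D := by
        have h3 : ‖z1‖ ≤ ρ := by
          rw [hz1, norm_mul, Complex.norm_I, mul_one, Complex.norm_real, Real.norm_eq_abs, hρ]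
          exact Complex.abs_im_le_norm z
        have h4 : ζ = (ζ - z1) + z1 := by ring
        rw [h4]
        refine (norm_add_le _ _).trans ?_
        rw [hζ]
        linarith
      have him : ρ - 2 * D ≤ |ζ.im| := by
        have h3 : |(ζ - z1).im| ≤ D := by rw [← hζ]; exact Complex.abs_im_le_norm _
        rw [Complex.sub_im, hz1im] at h3
        have h4 : ρ - D ≤ |z.im| := by
          apply abs_le_of_sq_le_sq' _ (abs_nonneg _) |>.2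
          rw [sq_abs]
          have h5 : z.re ^ 2 ≤ D ^ 2 := by
            rw [← sq_abs z.re]
            exact pow_le_pow_left₀ (abs_nonneg _) hcase.le 2
          nlinarith
        have h5 : |z.im| ≤ |ζ.im| + D := by
          have h6 : z.im = ζ.im - (ζ.im - z.im) := by ring
          calc |z.im| = |ζ.im - (ζ.im - z.im)| := by rw [← h6]
            _ ≤ |ζ.im| + |ζ.im - z.im| := abs_sub _ _
            _ ≤ _ := by linarith
        linarith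
      have him2 : ρ ^ 2 ≤ 2 * ζ.im ^ 2 := by
        have h3 : (11 / 12) * ρ ≤ |ζ.im| := by linarith
        have h4 : ((11 / 12) * ρ) ^ 2 ≤ ζ.im ^ 2 := by
          rw [← sq_abs ζ.im]
          exact pow_le_pow_left₀ (by positivity) h3 2
        nlinarith [sq_nonneg ρ]
      have hn2 : ‖ζ‖ ^ 2 ≤ ρ ^ 2 + 3 * ρ * D := by
        have h3 : ‖ζ‖ ^ 2 ≤ (ρ + D) ^ 2 := pow_le_pow_left₀ (norm_nonneg _) hζn 2
        nlinarith
      have hX : ‖ζ‖ ^ 2 - 2 * ζ.im ^ 2 / (‖ζ‖ ^ 2 + 4) ≤ ρ ^ 2 - 2 * ρ * g := by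
        have h3 : ‖ζ‖ ^ 2 + 4 ≤ 4 * (ρ ^ 2 + 1) := by nlinarith
        have h4 : ρ ^ 2 / (4 * (ρ ^ 2 + 1)) ≤ 2 * ζ.im ^ 2 / (‖ζ‖ ^ 2 + 4) :=
          div_le_div₀ (by positivity) him2 (by positivity) h3
        have h5 : 3 * ρ * D = ρ ^ 2 / (8 * (ρ ^ 2 + 1)) := by
          rw [hD]
          field_simp
          norm_num
        have h6 : 2 * ρ * g = ρ ^ 2 / (8 * (ρ ^ 2 + 1)) := by
          rw [hg]
          field_simp
          norm_num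
        have h7 : ρ ^ 2 / (4 * (ρ ^ 2 + 1)) = 2 * (ρ ^ 2 / (8 * (ρ ^ 2 + 1))) := by
          field_simp
          norm_num
        rw [h6]
        linarith
      have h8 := ypow hρ0 hg0 hgρ hX L
      rw [← hR] at h8
      rw [hf]
      simp only
      rw [norm_mul, h1]
      calc ‖aeval ζ (N n (V (sg n) w))‖ * (2 * D * |ζ.re|)
          = 2 * D * (|ζ.re| * ‖aeval ζ (N n (V (sg n) w))‖) := by ring
        _ ≤ 2 * D * (2 ^ n * ‖ζ‖ * Yf (‖ζ‖ ^ 2 - 2 * ζ.im ^ 2 / (‖ζ‖ ^ 2 + 4)) ^ w.length) :=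
          mul_le_mul_of_nonneg_left h2 (by positivity)
        _ ≤ _ := by
          refine mul_le_mul_of_nonneg_left ?_ (by positivity)
          refine mul_le_mul (mul_le_mul_of_nonneg_left (by linarith) (by positivity)) ?_
            (pow_nonneg (Yf_nonneg _) _) (by positivity)
          rw [← hL]
          exact h8.trans (mul_le_mul_of_nonneg_left hexp (by positivity))
    have hdiff : Differentiable ℂ f := by
      rw [hf]
      exact (Polynomial.differentiable_aeval _).mul (by fun_prop)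
    have hcl : z ∈ closure (Metric.ball z1 D) := by
      apply subset_closure
      rw [Metric.mem_ball, dist_eq_norm]
      have h1 : z - z1 = (z.re : ℂ) := by
        apply Complex.ext
        · rw [Complex.sub_re, hz1re, sub_zero, Complex.ofReal_re]
        · rw [Complex.sub_im, hz1im, sub_self, Complex.ofReal_im]
      rw [h1, Complex.norm_real, Real.norm_eq_abs]
      exact hcase
    have hmax := Complex.norm_le_of_forall_mem_frontier_norm_le Metric.isBounded_ball hdiff.diffContOnCl hfr hcl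
    have hfz : A * D ^ 2 ≤ ‖f z‖ := by
      rw [hf]
      simp only
      rw [norm_mul, ← hA]
      refine mul_le_mul_of_nonneg_left ?_ hA0
      have h1 : z - z1 = (z.re : ℂ) := by
        apply Complex.ext
        · rw [Complex.sub_re, hz1re, sub_zero, Complex.ofReal_re]
        · rw [Complex.sub_im, hz1im, sub_self, Complex.ofReal_im]
      have h2 : (z - z1) ^ 2 + (D : ℂ) ^ 2 = ((z.re ^ 2 + D ^ 2 : ℝ) : ℂ) := by
        rw [h1]
        push_cast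
        ring
      rw [h2, Complex.norm_real, Real.norm_of_nonneg (by positivity)]
      nlinarith [sq_nonneg z.re]
    have h1 : A * D ^ 2 ≤ 2 * D * (2 ^ n * (2 * ρ) * (R ^ L * E)) := hfz.trans hmax
    have h2 : A * D ≤ 2 * (2 ^ n * (2 * ρ) * (R ^ L * E)) := by
      refine le_of_mul_le_mul_right ?_ hD0
      nlinarith [h1]
    have h3 : A * ρ ≤ 96 * (ρ ^ 2 + 1) * 2 ^ n * (R ^ L * E) * ρ := by
      have e1 : A * ρ = (24 * (ρ ^ 2 + 1)) * (A * D) := by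
        conv_lhs => rw [← hDe]
        ring
      rw [e1]
      have h9 := mul_le_mul_of_nonneg_left h2 (by positivity : 0 ≤ 24 * (ρ ^ 2 + 1))
      refine h9.trans (le_of_eq ?_)
      ring
    exact le_of_mul_le_mul_right h3 hρ0

/-- **Theorem D.** -/
theorem decD (hUD : UD) (h : Mk G sg N) {n : ℕ} {w : List ℕ} (hw : ∀ a ∈ w, a < n) (hf : ∀ a < n, a ∈ w)
    (z : ℂ) (hz : z ≠ 0) :
    ‖aeval z (N n (V (sg n) w))‖ ≤ 96 * (‖z‖ ^ 2 + 1) * (2 * Yf (‖z‖ ^ 2) ^ 2 / ‖z‖) ^ n *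
      Real.exp (-(w.length * (‖z‖ * (1 - Real.cos (2 * z.arg)) / (64 * Yf (‖z‖ ^ 2) * (‖z‖ ^ 2 + 1))))) *
        aeval ‖z‖ (N n (V (sg n) w)) := by
  have h1 := upperD hUD h hw z hz
  have hρ0 : 0 < ‖z‖ := norm_pos_iff.2 hz
  have hR1 := Yf_ge_one (sq_nonneg ‖z‖)
  have hRs := Yf_sq (sq_nonneg ‖z‖)
  rw [Real.sqrt_sq hρ0.le] at hRs
  obtain ⟨R, hR⟩ : ∃ R, R = Yf (‖z‖ ^ 2) := ⟨_, rfl⟩
  rw [← hR] at h1 hR1 hRs ⊢
  have hR2 : 1 < R := by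
    rcases lt_or_eq_of_le hR1 with h2 | h2
    · exact h2
    · rw [← h2] at hRs
      linarith
  have hrR : ‖z‖ = R - R⁻¹ := by
    field_simp
    linarith
  have h2 := lo h hR2 hrR n w hw hf
  obtain ⟨B, hB⟩ : ∃ B, B = aeval ‖z‖ (N n (V (sg n) w)) := ⟨_, rfl⟩
  rw [← hB] at h2 ⊢
  obtain ⟨E, hE⟩ : ∃ E, E = Real.exp (-(w.length * (‖z‖ * (1 - Real.cos (2 * z.arg)) / (64 * R * (‖z‖ ^ 2 + 1))))) :=
    ⟨_, rfl⟩
  rw [← hE] at h1 ⊢
  have hE0 : 0 ≤ E := by rw [hE]; positivity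
  have h3 : R ^ w.length ≤ (R ^ 2 / ‖z‖) ^ n * B := by
    rw [div_pow, div_mul_eq_mul_div, le_div_iff₀ (by positivity), ← pow_mul]
    linarith
  calc ‖aeval z (N n (V (sg n) w))‖ ≤ 96 * (‖z‖ ^ 2 + 1) * 2 ^ n * (R ^ w.length * E) := h1
    _ ≤ 96 * (‖z‖ ^ 2 + 1) * 2 ^ n * (((R ^ 2 / ‖z‖) ^ n * B) * E) := by
      refine mul_le_mul_of_nonneg_left (mul_le_mul_of_nonneg_right h3 hE0) (by positivity)
    _ = 96 * (‖z‖ ^ 2 + 1) * (2 * R ^ 2 / ‖z‖) ^ n * E * B := by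
      rw [mul_div_assoc, mul_pow 2 (R ^ 2 / ‖z‖) n]
      ring

theorem Yf_sq_le {ρ : ℝ} (hρ : 0 ≤ ρ) : Yf (ρ ^ 2) ≤ ρ + 1 := by
  unfold Yf
  rw [Real.sqrt_sq hρ]
  have h1 : √(ρ ^ 2 + 4) ≤ ρ + 2 := Real.sqrt_le_iff.2 ⟨by linarith, by nlinarith⟩
  linarith

/-- **Theorem D**, with the weight `wt` and an absolute rate. -/
theorem decD' (hUD : UD) (h : Mk G sg N) : ∃ κ : ℝ, 0 < κ ∧ ∀ r₀ R : ℝ, 0 < r₀ → ∃ A : ℝ, 1 ≤ A ∧
    ∀ (n : ℕ) (w : List ℕ), (∀ a ∈ w, a < n) → (∀ a < n, a ∈ w) → ∀ z : ℂ, z ≠ 0 → r₀ ≤ ‖z‖ ^ 2 → ‖z‖ ^ 2 ≤ R →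
      ‖aeval z (N n (V (sg n) w))‖ ≤ A ^ (n + 1) *
        Real.exp (-(κ * w.length * Pool.Agent.Helper74.EV4.wt (‖z‖ ^ 2) * (1 - Real.cos (2 * z.arg)))) *
          aeval ‖z‖ (N n (V (sg n) w)) := by
  refine ⟨1 / 128, by norm_num, fun r₀ R hr₀ => ?_⟩
  obtain ⟨A1, hA1⟩ : ∃ A1, A1 = 96 * (|R| + 1) := ⟨_, rfl⟩
  obtain ⟨A2, hA2⟩ : ∃ A2, A2 = 2 * (√|R| + 1) ^ 2 / √r₀ := ⟨_, rfl⟩
  have hs0 : 0 < √r₀ := Real.sqrt_pos.2 hr₀
  refine ⟨max (max A1 A2) 1, le_max_right _ _, fun n w hw hf z hz hr hR => ?_⟩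
  obtain ⟨A, hA⟩ : ∃ A, A = max (max A1 A2) 1 := ⟨_, rfl⟩
  have hAA1 : A1 ≤ A := hA ▸ (le_max_left _ _).trans (le_max_left _ _)
  have hAA2 : A2 ≤ A := hA ▸ (le_max_right _ _).trans (le_max_left _ _)
  have hA0 : 1 ≤ A := hA ▸ le_max_right _ _
  rw [← hA]
  have h1 := decD hUD h hw hf z hz
  obtain ⟨ρ, hρ⟩ : ∃ ρ, ρ = ‖z‖ := ⟨_, rfl⟩
  have hρ0 : 0 < ρ := by rw [hρ]; exact norm_pos_iff.2 hz
  rw [← hρ] at h1 hr hR ⊢
  obtain ⟨B, hB⟩ : ∃ B, B = aeval ρ (N n (V (sg n) w)) := ⟨_, rfl⟩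
  have hB0 : 0 ≤ B := by rw [hB]; exact aeval_nonneg (h.pos n w hw) hρ0.le
  rw [← hB] at h1 ⊢
  refine h1.trans (mul_le_mul_of_nonneg_right ?_ hB0)
  have hY1 := Yf_ge_one (sq_nonneg ρ)
  have hY2 := Yf_sq_le hρ0.le
  obtain ⟨Y, hY⟩ : ∃ Y, Y = Yf (ρ ^ 2) := ⟨_, rfl⟩
  rw [← hY] at hY1 hY2 ⊢
  have hRabs : R ≤ |R| := le_abs_self R
  have hρR : ρ ≤ √|R| := Real.le_sqrt_of_sq_le (hR.trans hRabs)
  have hρr : √r₀ ≤ ρ := Real.sqrt_le_iff.2 ⟨hρ0.le, hr⟩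
  refine mul_le_mul ?_ ?_ (Real.exp_pos _).le (by positivity)
  · rw [pow_succ' A n]
    refine mul_le_mul ?_ ?_ (by positivity) (by positivity)
    · refine le_trans ?_ hAA1
      rw [hA1]
      linarith
    · refine pow_le_pow_left₀ (by positivity) (le_trans ?_ hAA2) n
      rw [hA2]
      refine div_le_div₀ (by positivity) ?_ hs0 hρr
      refine mul_le_mul_of_nonneg_left ?_ (by norm_num)
      exact pow_le_pow_left₀ (by linarith) (by linarith) 2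
  · apply Real.exp_le_exp.2
    apply neg_le_neg
    obtain ⟨c, hc⟩ : ∃ c, c = 1 - Real.cos (2 * z.arg) := ⟨_, rfl⟩
    have hc0 : 0 ≤ c := by rw [hc]; linarith [Real.cos_le_one (2 * z.arg)]
    rw [← hc]
    have h2 : 1 / 128 * (w.length : ℝ) * Pool.Agent.Helper74.EV4.wt (ρ ^ 2) * c =
        w.length * (1 / 128 * (ρ ^ 2 / (1 + ρ ^ 2) ^ 2) * c) := by
      unfold Pool.Agent.Helper74.EV4.wt
      ring
    rw [h2]
    refine mul_le_mul_of_nonneg_left ?_ (Nat.cast_nonneg _)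
    have h3 : 1 / 128 * (ρ ^ 2 / (1 + ρ ^ 2) ^ 2) ≤ ρ / (64 * Y * (ρ ^ 2 + 1)) := by
      have h4 : ρ / (64 * (ρ + 1) * (ρ ^ 2 + 1)) ≤ ρ / (64 * Y * (ρ ^ 2 + 1)) := by
        refine div_le_div_of_nonneg_left hρ0.le (by positivity) ?_
        refine mul_le_mul_of_nonneg_right ?_ (by positivity)
        linarith
      refine le_trans ?_ h4
      rw [one_div, inv_mul_eq_div, div_div, div_le_div_iff₀ (by positivity) (by positivity)]
      have h5 : 0 ≤ ρ * (ρ ^ 2 + 1) * (ρ ^ 2 - ρ + 2) := by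
        have : 0 ≤ ρ ^ 2 - ρ + 2 := by nlinarith [sq_nonneg (ρ - 1)]
        positivity
      nlinarith [h5]
    calc 1 / 128 * (ρ ^ 2 / (1 + ρ ^ 2) ^ 2) * c ≤ ρ / (64 * Y * (ρ ^ 2 + 1)) * c :=
        mul_le_mul_of_nonneg_right h3 hc0
      _ = ρ * c / (64 * Y * (ρ ^ 2 + 1)) := by ring

end words

end Pool.Agent.Helper7.UNI
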