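import Pool.Agent.Helper7.UNI.Windows

/-!
# UNI: triples of crossings counted in the diagram

`tw w`: the number of disjoint triples of crossings of one column `a` such that no crossing of the columns
`a - 1`, `a + 1` lies between them. Every word is equivalent, by far commutations, to a word with `tw w` disjoint cubes.
-/

set_option autoImplicit false

namespace Pool.Agent.Helper7.UNI

open Polynomial Pool.Agent.Helper76.Conway.Top Pool.Agent.Helper74.EV4

/-- the number of letters `a` before the first letter `a - 1` or `a + 1` -/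
def lead (a : ℕ) : List ℕ → ℕ
  | [] => 0
  | b :: u => if b = a then lead a u + 1 else if b = a + 1 ∨ b + 1 = a then 0 else lead a u

/-- the number of disjoint triples of crossings of one column with no crossing of a neighbouring column between them:
a crossing is counted if the number of the later crossings of its run is `2` modulo `3` -/
def tw : List ℕ → ℕ
  | [] => 0
  | a :: u => tw u + if lead a u % 3 = 2 then 1 else 0

/-- the number of leading letters `a` -/
def blk (a : ℕ) : List ℕ → ℕ
  | [] => 0
  | b :: u => if b = a then blk a u + 1 else 0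

theorem lead_far {a b : ℕ} (h : a + 2 ≤ b ∨ b + 2 ≤ a) (u : List ℕ) : lead a (b :: u) = lead a u := by
  rw [lead, if_neg (by omega), if_neg (by omega)]

theorem lead_self (a : ℕ) (u : List ℕ) : lead a (a :: u) = lead a u + 1 := by
  rw [lead, if_pos rfl]

theorem lead_swap {a b : ℕ} (h : a + 2 ≤ b ∨ b + 2 ≤ a) (c : ℕ) (u : List ℕ) :
    lead c (a :: b :: u) = lead c (b :: a :: u) := by
  simp only [lead]
  split_ifs <;> omega

theorem lead_ctx (c : ℕ) {u v : List ℕ} (h : lead c u = lead c v) (x : List ℕ) : lead c (x ++ u) = lead c (x ++ v) := by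
  induction x with
  | nil => exact h
  | cons a x ih =>
    rw [List.cons_append, List.cons_append, lead, lead, ih]

theorem tw_ctx {u v : List ℕ} (h : ∀ c, lead c u = lead c v) (h2 : tw u = tw v) (x : List ℕ) : tw (x ++ u) = tw (x ++ v) := by
  induction x with
  | nil => exact h2
  | cons a x ih =>
    rw [List.cons_append, List.cons_append, tw, tw, ih, lead_ctx a (h a)]

theorem tw_swap {a b : ℕ} (h : a + 2 ≤ b ∨ b + 2 ≤ a) (x u : List ℕ) : tw (x ++ a :: b :: u) = tw (x ++ b :: a :: u) := by
  refine tw_ctx (fun c => lead_swap h c u) ?_ x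
  rw [tw, tw, tw, tw, lead_far h, lead_far (by omega : b + 2 ≤ a ∨ a + 2 ≤ b)]
  omega

/-- every run is consecutive -/
def Gathered : List ℕ → Prop
  | [] => True
  | a :: u => Gathered u ∧ (0 < lead a u → ∃ v, u = a :: v)

theorem lead_eq_blk : ∀ (u : List ℕ) (a : ℕ), Gathered (a :: u) → lead a u = blk a u := by
  intro u
  induction u with
  | nil => intro a _; rfl
  | cons b u ih =>
    intro a h
    by_cases hb : b = a
    · subst hb
      rw [lead_self, blk, if_pos rfl, ih b h.1]
    · rw [blk, if_neg hb]
      by_contra h1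
      obtain ⟨v, hv⟩ := h.2 (Nat.pos_of_ne_zero h1)
      exact hb (List.cons.inj hv).1

theorem tw_le_cubes : ∀ (m : ℕ) (u : List ℕ), u.length ≤ m → Gathered u → tw u ≤ cubes u := by
  intro m
  induction m with
  | zero =>
    intro u hu _
    have : u = [] := List.length_eq_zero_iff.1 (Nat.le_zero.1 hu)
    subst this
    exact Nat.zero_le _
  | succ m ih =>
    intro u hu hg
    match u, hu, hg with
    | [], _, _ => exact Nat.zero_le _
    | [a], _, _ => simp [tw, lead]
    | [a, b], _, hg =>
      have h1 := lead_eq_blk _ a hg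
      rw [tw, h1]
      simp only [tw, lead, blk]
      split_ifs <;> simp_all
    | a :: b :: c :: u, hu, hg =>
      simp only [List.length_cons] at hu
      have h1 := lead_eq_blk _ a hg
      by_cases hc : a = b ∧ b = c
      · obtain ⟨rfl, rfl⟩ := hc
        rw [cubes_cube]
        have h2 := ih u (by omega) hg.1.1.1
        rw [tw, tw, tw]
        simp only [lead_self]
        split_ifs <;> omega
      · rw [cubes_skip u hc, tw, h1]
        have h2 := ih (b :: c :: u) (by simp only [List.length_cons]; omega) hg.1
        have h3 : blk a (b :: c :: u) % 3 ≠ 2 := by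
          by_cases h4 : b = a
          · subst h4
            have h5 : ¬ c = b := fun h => hc ⟨rfl, h.symm⟩
            rw [blk, if_pos rfl, blk, if_neg h5]
            norm_num
          · rw [blk, if_neg h4]
            norm_num
        rw [if_neg h3]
        omega

/-- the first letter `a` can be moved to the next letter `a` of its run -/
theorem pull {n a : ℕ} (ha : a < n) : ∀ v : List ℕ, (∀ b ∈ v, b < n) → Gathered v → ∃ v', Eqv n (a :: v) v' ∧
    Gathered v' ∧ tw v' = tw (a :: v) ∧ (∀ c, lead c v' = lead c (a :: v)) ∧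
    (∀ b, (∃ y, v = b :: y) → (∃ y, v' = b :: y) ∨ lead a v = 0 ∨ b = a) := by
  intro v
  induction v with
  | nil =>
    intro _ _
    refine ⟨[a], Eqv.refl _, ⟨trivial, fun h => absurd h (by simp [lead])⟩, rfl, fun _ => rfl, ?_⟩
    rintro b ⟨y, hy⟩
    exact absurd hy (by simp)
  | cons b v ih =>
    intro hv hg
    have hb : b < n := hv b (by simp)
    by_cases h0 : lead a (b :: v) = 0
    · exact ⟨a :: b :: v, Eqv.refl _, ⟨hg, fun h => absurd h0 h.ne'⟩, rfl, fun _ => rfl, fun c hc => Or.inr (Or.inl h0)⟩
    · by_cases hab : b = a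
      · subst hab
        refine ⟨b :: b :: v, Eqv.refl _, ⟨hg, fun _ => ⟨v, rfl⟩⟩, rfl, fun _ => rfl, ?_⟩
        rintro c ⟨y, hy⟩
        exact Or.inl ⟨b :: v, by rw [(List.cons.inj hy).1]⟩
      · have hfar : a + 2 ≤ b ∨ b + 2 ≤ a := by
          by_contra hn
          apply h0
          rw [lead, if_neg hab, if_pos (by omega)]
        have h1 : lead a v ≠ 0 := by rwa [lead_far hfar] at h0
        obtain ⟨v', e, hg', ht, hl, hh⟩ := ih (fun c hc => hv c (List.mem_cons_of_mem _ hc)) hg.1
        refine ⟨b :: v', ?_, ⟨hg', ?_⟩, ?_, ?_, ?_⟩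
        · have e1 : Eqv n (a :: b :: v) (b :: a :: v) := by
            rcases hfar with h2 | h2
            · exact Eqv.comm [] v a b h2 hb
            · exact (Eqv.comm [] v b a h2 ha).symm
          have e2 := e.ctx [b] []
          simp only [List.append_nil, List.singleton_append] at e2
          exact e1.trans e2
        · intro h2
          rw [hl b, lead_far hfar.symm] at h2
          obtain ⟨y, hy⟩ := hg.2 h2
          rcases hh b ⟨y, hy⟩ with h3 | h3 | h3
          · exact h3
          · exact absurd h3 h1
          · exact absurd h3 hab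
        · have e1 := tw_swap hfar [] v
          rw [List.nil_append, List.nil_append] at e1
          rw [e1, tw, ht]
          conv_rhs => rw [tw]
          rw [hl b]
        · intro c
          rw [lead_swap hfar c v, lead, hl c]
          conv_rhs => rw [lead]
        · rintro c ⟨y, hy⟩
          exact Or.inl ⟨v', by rw [(List.cons.inj hy).1]⟩

/-- **Every word is equivalent, by far commutations, to a word with `tw w` disjoint cubes.** -/
theorem exists_gathered {n : ℕ} : ∀ w : List ℕ, (∀ a ∈ w, a < n) → ∃ v, Eqv n w v ∧ Gathered v ∧ tw v = tw w ∧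
    ∀ c, lead c v = lead c w := by
  intro w
  induction w with
  | nil => exact fun _ => ⟨[], Eqv.refl _, trivial, rfl, fun _ => rfl⟩
  | cons a w ih =>
    intro hw
    obtain ⟨v, e, hg, ht, hl⟩ := ih fun b hb => hw b (List.mem_cons_of_mem _ hb)
    have hv : ∀ b ∈ v, b < n := fun b hb => hw b (List.mem_cons_of_mem _ ((e.mem_iff b).2 hb))
    obtain ⟨v', e', hg', ht', hl', -⟩ := pull (hw a (by simp)) v hv hg
    refine ⟨v', ?_, hg', ?_, ?_⟩
    · have e2 := e.ctx [a] []
      simp only [List.append_nil, List.singleton_append] at e2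
      exact e2.trans e'
    · rw [ht', tw, tw, ht, hl]
    · intro c
      rw [hl' c, lead, hl c]
      conv_rhs => rw [lead]

/-- the form used below -/
theorem exists_cubes {n : ℕ} {w : List ℕ} (hw : ∀ a ∈ w, a < n) : ∃ v, Eqv n w v ∧ tw w ≤ cubes v := by
  obtain ⟨v, e, hg, ht, -⟩ := exists_gathered w hw
  exact ⟨v, e, ht ▸ tw_le_cubes v.length v le_rfl hg⟩

/-- `tw` counts at least the disjoint cubes -/
theorem cubes_le_tw : ∀ (m : ℕ) (u : List ℕ), u.length ≤ m → cubes u ≤ tw u := by
  intro m
  induction m with
  | zero =>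
    intro u hu
    have : u = [] := List.length_eq_zero_iff.1 (Nat.le_zero.1 hu)
    subst this
    simp [cubes]
  | succ m ih =>
    intro u hu
    match u, hu with
    | [], _ => simp [cubes]
    | [a], _ => simp [cubes]
    | [a, b], _ => simp [cubes]
    | a :: b :: c :: u, hu =>
      simp only [List.length_cons] at hu
      by_cases hc : a = b ∧ b = c
      · obtain ⟨rfl, rfl⟩ := hc
        rw [cubes_cube]
        have h2 := ih u (by omega)
        rw [tw, tw, tw]
        simp only [lead_self]
        split_ifs <;> omega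
      · rw [cubes_skip u hc, tw]
        have h2 := ih (b :: c :: u) (by simp only [List.length_cons]; omega)
        omega

section words

variable {G : ℕ → Type} [∀ n, Group (G n)] {sg : ∀ n, ℕ → G n} {N : ∀ n, G n → ℤ[X]}

/-- **Decay away from the positive axis**, from the triples of crossings in the diagram. -/
theorem win' (h : Mk G sg N) {n : ℕ} {w : List ℕ} (hw : ∀ a ∈ w, a < n) (z : ℂ) :
    ‖aeval z (N n (V (sg n) w))‖ ≤
      Real.exp (-(tw w * (wt (‖z‖ ^ 2) * (1 - Real.cos (2 * z.arg)) / 4))) *
        aeval ‖z‖ (N n (V (sg n) w)) := by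
  obtain ⟨v, e, hv⟩ := exists_cubes hw
  have h1 := win h (fun a ha => hw a ((e.mem_iff a).2 ha)) z
  rw [h.V_eqv e]
  refine h1.trans (mul_le_mul_of_nonneg_right ?_ (aeval_nonneg (h.pos n v fun a ha => hw a ((e.mem_iff a).2 ha))
    (norm_nonneg z)))
  apply Real.exp_le_exp.2
  apply neg_le_neg
  have hw0 : 0 ≤ wt (‖z‖ ^ 2) := by unfold wt; positivity
  have hc : 0 ≤ 1 - Real.cos (2 * z.arg) := sub_nonneg.2 (Real.cos_le_one _)
  refine mul_le_mul_of_nonneg_right (by exact_mod_cast hv) (by positivity)

end words

end Pool.Agent.Helper7.UNI
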