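import Pool.Agent.Helper7.UNI.DecD
import Pool.Agent.Helper7.UNI.Tw
import Pool.Agent.Helper29.UD.Letter

/-!
# Theorem D, with helper29's determinant bound plugged in
-/

set_option autoImplicit false

namespace Pool.Agent.Helper7.UNI

open Polynomial Pool.Agent.Helper76.Conway.Top Pool.Agent.Helper99.ZB

theorem udd : UD := fun s σ h0 h1 hs h2 n w hw => Pool.Agent.Helper29.UD.ud s σ h0 h1 hs h2 n w hw

section words

variable {G : ℕ → Type} [∀ n, Group (G n)] {sg : ∀ n, ℕ → G n} {N : ∀ n, G n → ℤ[X]}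

/-- **Theorem D**, explicit. -/
theorem theoremD (h : Mk G sg N) {n : ℕ} {w : List ℕ} (hw : ∀ a ∈ w, a < n) (hf : ∀ a < n, a ∈ w)
    (z : ℂ) (hz : z ≠ 0) :
    ‖aeval z (N n (V (sg n) w))‖ ≤ 96 * (‖z‖ ^ 2 + 1) * (2 * Yf (‖z‖ ^ 2) ^ 2 / ‖z‖) ^ n *
      Real.exp (-(w.length * (‖z‖ * (1 - Real.cos (2 * z.arg)) / (64 * Yf (‖z‖ ^ 2) * (‖z‖ ^ 2 + 1))))) *
        aeval ‖z‖ (N n (V (sg n) w)) :=
  decD udd h hw hf z hz

/-- **Theorem D**, with the weight `wt` and an absolute rate. -/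
theorem theoremD' (h : Mk G sg N) : ∃ κ : ℝ, 0 < κ ∧ ∀ r₀ R : ℝ, 0 < r₀ → ∃ A : ℝ, 1 ≤ A ∧
    ∀ (n : ℕ) (w : List ℕ), (∀ a ∈ w, a < n) → (∀ a < n, a ∈ w) → ∀ z : ℂ, z ≠ 0 → r₀ ≤ ‖z‖ ^ 2 → ‖z‖ ^ 2 ≤ R →
      ‖aeval z (N n (V (sg n) w))‖ ≤ A ^ (n + 1) *
        Real.exp (-(κ * w.length * Pool.Agent.Helper74.EV4.wt (‖z‖ ^ 2) * (1 - Real.cos (2 * z.arg)))) *
          aeval ‖z‖ (N n (V (sg n) w)) :=
  decD' udd h

end words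

end Pool.Agent.Helper7.UNI
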