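import Pool.Agent.Helper76.Conway.TopMk
import Pool.Agent.Helper74.EV4.Hyp
import Pool.Agent.Helper29.EV2.Fin

/-!
# UNI, leaf U4: the decay away from the positive axis from disjoint cubes

A positive word with many disjoint blocks `i i i`, any number of strands.
-/

set_option autoImplicit false

namespace Pool.Agent.Helper7.UNI

open Polynomial Pool.Agent.Helper76.Conway.Top Pool.Agent.Helper74.EV4

/-- the number of disjoint blocks `a a a` in a word, counted from the left -/
def cubes {α : Type} [DecidableEq α] : List α → ℕ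
  | a :: b :: c :: u => if a = b ∧ b = c then 1 + cubes u else cubes (b :: c :: u)
  | _ => 0
termination_by u => u.length

theorem cubes_cube {α : Type} [DecidableEq α] (a : α) (u : List α) :
    cubes (a :: a :: a :: u) = 1 + cubes u := by
  rw [cubes]
  simp

theorem cubes_skip {α : Type} [DecidableEq α] {a b c : α} (u : List α) (h : ¬ (a = b ∧ b = c)) :
    cubes (a :: b :: c :: u) = cubes (b :: c :: u) := by
  rw [cubes, if_neg h]

theorem cubes_map {α β : Type} [DecidableEq α] [DecidableEq β] {f : α → β} (hf : Function.Injective f) :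
    ∀ (m : ℕ) (u : List α), u.length ≤ m → cubes (u.map f) = cubes u := by
  intro m
  induction m with
  | zero =>
    intro u hu
    have : u = [] := List.length_eq_zero_iff.1 (Nat.le_zero.1 hu)
    subst this
    simp [cubes]
  | succ m ih =>
    intro u hu
    match u, hu with
    | [], _ => simp [cubes]
    | [a], _ => simp [cubes]
    | [a, b], _ => simp [cubes]
    | a :: b :: c :: u, hu =>
      simp only [List.length_cons] at hu
      by_cases h : a = b ∧ b = c
      · obtain ⟨rfl, rfl⟩ := h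
        rw [List.map_cons, List.map_cons, List.map_cons, cubes_cube, cubes_cube, ih u (by omega)]
      · rw [cubes_skip u h, List.map_cons, List.map_cons, List.map_cons, cubes_skip]
        · rw [← List.map_cons, ← List.map_cons]
          exact ih (b :: c :: u) (by simp only [List.length_cons]; omega)
        · rintro ⟨h1, h2⟩
          exact h ⟨hf h1, hf h2⟩

theorem aeval_nonneg {p : ℤ[X]} (hp : Le 0 p) {r : ℝ} (hr : 0 ≤ r) : 0 ≤ aeval r p := by
  rw [aeval_eq_sum_range]
  refine Finset.sum_nonneg fun i _ => ?_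
  have h := hp i
  rw [coeff_zero] at h
  rw [zsmul_eq_mul]
  exact mul_nonneg (by exact_mod_cast h) (pow_nonneg hr i)

theorem aeval_mono {p q : ℤ[X]} (h : Le p q) {r : ℝ} (hr : 0 ≤ r) : aeval r p ≤ aeval r q := by
  have h1 := aeval_nonneg h.sub_nonneg hr
  rw [map_sub] at h1
  linarith

theorem norm_aeval_le {p : ℤ[X]} (hp : Le 0 p) (z : ℂ) : ‖aeval z p‖ ≤ aeval ‖z‖ p := by
  rw [aeval_eq_sum_range, aeval_eq_sum_range]
  refine (norm_sum_le _ _).trans (Finset.sum_le_sum fun i _ => ?_)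
  have h := hp i
  rw [coeff_zero] at h
  rw [zsmul_eq_mul, zsmul_eq_mul, norm_mul, norm_pow]
  refine mul_le_mul_of_nonneg_right ?_ (by positivity)
  have h1 : ((p.coeff i : ℤ) : ℂ) = (((p.coeff i : ℤ) : ℝ) : ℂ) := by push_cast; rfl
  rw [h1, Complex.norm_real, Real.norm_of_nonneg (by exact_mod_cast h)]

/-- the factor of a cube -/
noncomputable def lam (z : ℂ) : ℝ := (1 + ‖1 + z ^ 2‖) / (2 + ‖z‖ ^ 2)

theorem lam_nonneg (z : ℂ) : 0 ≤ lam z := by unfold lam; positivity

theorem lam_le_one (z : ℂ) : lam z ≤ 1 := by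
  unfold lam
  rw [div_le_one (by positivity)]
  have h := norm_add_le (1 : ℂ) (z ^ 2)
  rw [norm_one, norm_pow] at h
  linarith

section words

variable {G : ℕ → Type} [∀ n, Group (G n)] {sg : ∀ n, ℕ → G n} {N : ∀ n, G n → ℤ[X]}

/-- the expansion at a cube -/
theorem cube_word (h : Mk G sg N) {n j : ℕ} (hj : j < n) (x y : List ℕ) :
    N n (V (sg n) (x ++ j :: j :: j :: y)) =
      X * N n (V (sg n) (x ++ y)) + (1 + X ^ 2) * N n (V (sg n) (x ++ j :: y)) := by
  have h1 := h.quad_word hj x (j :: y)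
  have h2 := h.quad_word hj x y
  rw [h1, h2]
  ring

/-- **Cubes**: every disjoint block `i i i` contributes the factor `lam z`. -/
theorem cubes_bound (h : Mk G sg N) {n : ℕ} (z : ℂ) : ∀ (m : ℕ) (u : List ℕ), u.length ≤ m →
    (∀ a ∈ u, a < n) → ∀ x : List ℕ, (∀ a ∈ x, a < n) →
      ‖aeval z (N n (V (sg n) (x ++ u)))‖ ≤ lam z ^ cubes u * aeval ‖z‖ (N n (V (sg n) (x ++ u))) := by
  have hl0 := lam_nonneg z
  have hl1 := lam_le_one z
  -- no cube counted
  have triv : ∀ w : List ℕ, (∀ a ∈ w, a < n) →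
      ‖aeval z (N n (V (sg n) w))‖ ≤ aeval ‖z‖ (N n (V (sg n) w)) := fun w hw => norm_aeval_le (h.pos n w hw) z
  have app : ∀ {x u : List ℕ}, (∀ a ∈ x, a < n) → (∀ a ∈ u, a < n) → ∀ a ∈ x ++ u, a < n := by
    intro x u hx hu a ha
    rcases List.mem_append.1 ha with ha | ha
    · exact hx a ha
    · exact hu a ha
  intro m
  induction m with
  | zero =>
    intro u hu hun x hx
    have : u = [] := List.length_eq_zero_iff.1 (Nat.le_zero.1 hu)
    subst this
    rw [cubes, pow_zero, one_mul]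
    · exact triv _ (app hx hun)
    · intro _ _ _ _ h
      exact absurd h (by simp)
  | succ m ih =>
    intro u hu hun x hx
    match u, hu, hun with
    | [], _, hun => rw [show cubes ([] : List ℕ) = 0 by simp [cubes], pow_zero, one_mul]; exact triv _ (app hx hun)
    | [a], _, hun => rw [show cubes [a] = 0 by simp [cubes], pow_zero, one_mul]; exact triv _ (app hx hun)
    | [a, b], _, hun => rw [show cubes [a, b] = 0 by simp [cubes], pow_zero, one_mul]; exact triv _ (app hx hun)
    | a :: b :: c :: u, hu, hun =>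
      simp only [List.length_cons] at hu
      have hu' : ∀ d ∈ u, d < n := fun d hd => hun d (by simp [hd])
      have ha : a < n := hun a (by simp)
      by_cases hc : a = b ∧ b = c
      · obtain ⟨rfl, rfl⟩ := hc
        rw [cubes_cube, cube_word h ha]
        have h0 := ih u (by omega) hu' x hx
        have h1 := ih u (by omega) hu' (x ++ [a]) (app hx (by simpa using ha))
        rw [List.append_assoc, List.singleton_append] at h1
        have h2 := aeval_mono (h.mono ha hx hu') (norm_nonneg z)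
        rw [map_mul, aeval_X] at h2
        simp only [map_add, map_mul, map_one, map_pow, aeval_X]
        obtain ⟨A, hA⟩ : ∃ A, A = aeval ‖z‖ (N n (V (sg n) (x ++ u))) := ⟨_, rfl⟩
        obtain ⟨B, hB⟩ : ∃ B, B = aeval ‖z‖ (N n (V (sg n) (x ++ a :: u))) := ⟨_, rfl⟩
        rw [← hA] at h0 h2 ⊢
        rw [← hB] at h1 h2 ⊢
        have hp : 0 ≤ lam z ^ cubes u := pow_nonneg hl0 _
        have key : ‖z‖ * A + ‖1 + z ^ 2‖ * B ≤ lam z * (‖z‖ * A + (1 + ‖z‖ ^ 2) * B) := by
          have e : lam z * (2 + ‖z‖ ^ 2) = 1 + ‖1 + z ^ 2‖ := by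
            unfold lam
            exact div_mul_cancel₀ _ (by positivity)
          have h3 := mul_le_mul_of_nonneg_left h2 (sub_nonneg.2 hl1)
          have e2 : lam z * (‖z‖ * A + (1 + ‖z‖ ^ 2) * B) - (‖z‖ * A + ‖1 + z ^ 2‖ * B) =
              (1 - lam z) * B - (1 - lam z) * (‖z‖ * A) := by
            linear_combination B * e
          linarith
        refine (norm_add_le _ _).trans ?_
        rw [norm_mul, norm_mul]
        have h4 := mul_le_mul_of_nonneg_left h0 (norm_nonneg z)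
        have h5 := mul_le_mul_of_nonneg_left h1 (norm_nonneg (1 + z ^ 2))
        have h6 := mul_le_mul_of_nonneg_left key hp
        calc ‖z‖ * ‖aeval z (N n (V (sg n) (x ++ u)))‖ + ‖1 + z ^ 2‖ * ‖aeval z (N n (V (sg n) (x ++ a :: u)))‖
            ≤ ‖z‖ * (lam z ^ cubes u * A) + ‖1 + z ^ 2‖ * (lam z ^ cubes u * B) := add_le_add h4 h5
          _ = lam z ^ cubes u * (‖z‖ * A + ‖1 + z ^ 2‖ * B) := by ring
          _ ≤ lam z ^ cubes u * (lam z * (‖z‖ * A + (1 + ‖z‖ ^ 2) * B)) := h6
          _ = lam z ^ (1 + cubes u) * (‖z‖ * A + (1 + ‖z‖ ^ 2) * B) := by ring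
      · rw [cubes_skip u hc]
        have h1 := ih (b :: c :: u) (by simp only [List.length_cons]; omega)
          (fun d hd => hun d (List.mem_cons_of_mem _ hd)) (x ++ [a]) (app hx (by simpa using ha))
        rw [List.append_assoc, List.singleton_append] at h1
        exact h1

/-- the bound for a whole word -/
theorem cubes_word (h : Mk G sg N) {n : ℕ} {w : List ℕ} (hw : ∀ a ∈ w, a < n) (z : ℂ) :
    ‖aeval z (N n (V (sg n) w))‖ ≤ lam z ^ cubes w * aeval ‖z‖ (N n (V (sg n) w)) :=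
  cubes_bound h z w.length w le_rfl hw [] (by simp)

end words

theorem lam_le (z : ℂ) (hz : z ≠ 0) :
    lam z ≤ Real.exp (-(wt (‖z‖ ^ 2) * (1 - Real.cos (2 * z.arg)) / 2)) := by
  obtain ⟨t, ht⟩ : ∃ t, t = ‖z‖ ^ 2 := ⟨_, rfl⟩
  obtain ⟨c, hc⟩ : ∃ c, c = Real.cos (2 * z.arg) := ⟨_, rfl⟩
  have ht0 : 0 < t := by
    rw [ht]
    have := norm_pos_iff.2 hz
    positivity
  have hc1 : c ≤ 1 := hc ▸ Real.cos_le_one _
  have hc2 : -1 ≤ c := hc ▸ Real.neg_one_le_cos _
  have hre : (z ^ 2).re = t * c := by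
    rw [hc, Pool.Agent.Helper29.EV2.cos_two_arg z hz, ← ht]
    field_simp
  have hn2 : ‖z ^ 2‖ ^ 2 = t ^ 2 := by rw [norm_pow, ht]
  have hsq : ‖1 + z ^ 2‖ ^ 2 = (1 + t) ^ 2 - 2 * t * (1 - c) := by
    rw [← Complex.normSq_eq_norm_sq, Complex.normSq_apply] at hn2 ⊢
    simp only [Complex.add_re, Complex.add_im, Complex.one_re, Complex.one_im, zero_add]
    rw [hre] at hn2 ⊢
    linear_combination hn2
  have h1 : ‖1 + z ^ 2‖ ≤ (1 + t) - t * (1 - c) / (1 + t) := by
    have h2 : 0 ≤ (1 + t) - t * (1 - c) / (1 + t) := by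
      rw [sub_nonneg, div_le_iff₀ (by positivity)]
      nlinarith [sq_nonneg (1 - t)]
    refine le_of_sq_le_sq ?_ h2
    rw [hsq]
    have e : ((1 + t) - t * (1 - c) / (1 + t)) ^ 2 = (1 + t) ^ 2 - 2 * t * (1 - c) + (t * (1 - c) / (1 + t)) ^ 2 := by
      field_simp
      ring
    rw [e]
    have := sq_nonneg (t * (1 - c) / (1 + t))
    linarith
  have h3 : lam z ≤ 1 - wt t * (1 - c) / 2 := by
    unfold lam
    rw [← ht]
    have h4 : 1 + ‖1 + z ^ 2‖ ≤ (2 + t) - t * (1 - c) / (1 + t) := by linarith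
    refine (div_le_div_of_nonneg_right h4 (by positivity)).trans ?_
    rw [div_le_iff₀ (by positivity)]
    unfold wt
    have e : (1 - t / (1 + t) ^ 2 * (1 - c) / 2) * (2 + t) = (2 + t) - t * (1 - c) * ((2 + t) / (2 * (1 + t) ^ 2)) := by
      field_simp
    rw [e]
    have h5 : (2 + t) / (2 * (1 + t) ^ 2) ≤ 1 / (1 + t) := by
      rw [div_le_div_iff₀ (by positivity) (by positivity)]
      nlinarith
    have h6 := mul_le_mul_of_nonneg_left h5 (mul_nonneg ht0.le (sub_nonneg.2 hc1))
    have e2 : t * (1 - c) * (1 / (1 + t)) = t * (1 - c) / (1 + t) := by ring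
    linarith
  have h7 := Real.add_one_le_exp (-(wt t * (1 - c) / 2))
  rw [← ht, ← hc]
  linarith

section words

variable {G : ℕ → Type} [∀ n, Group (G n)] {sg : ∀ n, ℕ → G n} {N : ∀ n, G n → ℤ[X]}

/-- **Decay away from the positive axis** for a word with many disjoint cubes. -/
theorem dec_word (h : Mk G sg N) {n : ℕ} {w : List ℕ} (hw : ∀ a ∈ w, a < n) {K : ℕ}
    (hK : w.length ≤ K * cubes w) (z : ℂ) (hz : z ≠ 0) :
    ‖aeval z (N n (V (sg n) w))‖ ≤
      Real.exp (-(1 / (2 * K) * w.length * wt (‖z‖ ^ 2) * (1 - Real.cos (2 * z.arg)))) *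
        aeval ‖z‖ (N n (V (sg n) w)) := by
  refine (cubes_word h hw z).trans (mul_le_mul_of_nonneg_right ?_ (aeval_nonneg (h.pos n w hw) (norm_nonneg z)))
  refine (pow_le_pow_left₀ (lam_nonneg z) (lam_le z hz) _).trans ?_
  rw [← Real.exp_nat_mul]
  apply Real.exp_le_exp.2
  have hw0 : 0 ≤ wt (‖z‖ ^ 2) := by unfold wt; positivity
  have hc : 0 ≤ 1 - Real.cos (2 * z.arg) := sub_nonneg.2 (Real.cos_le_one _)
  have h1 : 1 / (2 * K) * (w.length : ℝ) ≤ cubes w / 2 := by
    rcases Nat.eq_zero_or_pos K with rfl | hK0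
    · rw [Nat.cast_zero, mul_zero, div_zero, zero_mul]
      positivity
    · have h2 : (w.length : ℝ) ≤ K * cubes w := by exact_mod_cast hK
      have h3 : (0 : ℝ) < K := by exact_mod_cast hK0
      rw [div_mul_eq_mul_div, one_mul, div_le_div_iff₀ (by positivity) (by norm_num)]
      nlinarith
  have h4 := mul_le_mul_of_nonneg_right h1 (mul_nonneg hw0 hc)
  have e : -(1 / (2 * K) * (w.length : ℝ) * wt (‖z‖ ^ 2) * (1 - Real.cos (2 * z.arg))) =
    -(1 / (2 * K) * (w.length : ℝ) * (wt (‖z‖ ^ 2) * (1 - Real.cos (2 * z.arg)))) := by ring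
  rw [e]
  have e2 : (cubes w : ℝ) * -(wt (‖z‖ ^ 2) * (1 - Real.cos (2 * z.arg)) / 2) =
    -(cubes w / 2 * (wt (‖z‖ ^ 2) * (1 - Real.cos (2 * z.arg)))) := by ring
  rw [e2]
  linarith

/-- **Decay away from the positive axis**, in the form used by helper74's assembly. -/
theorem win (h : Mk G sg N) {n : ℕ} {w : List ℕ} (hw : ∀ a ∈ w, a < n) (z : ℂ) :
    ‖aeval z (N n (V (sg n) w))‖ ≤
      Real.exp (-(cubes w * (wt (‖z‖ ^ 2) * (1 - Real.cos (2 * z.arg)) / 4))) *
        aeval ‖z‖ (N n (V (sg n) w)) := by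
  refine (cubes_word h hw z).trans (mul_le_mul_of_nonneg_right ?_ (aeval_nonneg (h.pos n w hw) (norm_nonneg z)))
  rcases eq_or_ne z 0 with rfl | hz
  · have h1 : wt (‖(0 : ℂ)‖ ^ 2) = 0 := by unfold wt; simp
    rw [h1]
    simp only [zero_mul, zero_div, mul_zero, neg_zero, Real.exp_zero]
    exact pow_le_one₀ (lam_nonneg 0) (lam_le_one 0)
  · refine (pow_le_pow_left₀ (lam_nonneg z) (lam_le z hz) _).trans ?_
    rw [← Real.exp_nat_mul]
    apply Real.exp_le_exp.2
    have hw0 : 0 ≤ wt (‖z‖ ^ 2) := by unfold wt; positivity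
    have hc : 0 ≤ 1 - Real.cos (2 * z.arg) := sub_nonneg.2 (Real.cos_le_one _)
    have h1 := mul_nonneg (Nat.cast_nonneg (α := ℝ) (cubes w)) (mul_nonneg hw0 hc)
    nlinarith

end words

end Pool.Agent.Helper7.UNI
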