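import Pool.Agent.Helper7.UNI.Prod
import Pool.Agent.Helper7.UNI.Windows

/-!
# (Lo): a lower bound of the Conway polynomial on the positive axis, for all positive words

`R ^ (L - n) (1 - 1 / R ^ 2) ^ n ≤ ∇(r)`, `r = R - 1 / R`, `L` letters, `n` generators.
-/

set_option autoImplicit false

namespace Pool.Agent.Helper7.UNI

open Polynomial Pool.Agent.Helper76.Conway.Top

section words

variable {G : ℕ → Type} [∀ n, Group (G n)] {s : ∀ n, ℕ → G n} {N : ∀ n, G n → ℤ[X]}

/-- **The lower bound on the positive axis.** -/
theorem lo (h : Mk G s N) {r R : ℝ} (hR : 1 < R) (hr : r = R - R⁻¹) : ∀ (n : ℕ) (w : List ℕ),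
    (∀ a ∈ w, a < n) → (∀ a < n, a ∈ w) →
    r ^ n * R ^ w.length ≤ R ^ (2 * n) * aeval r (N n (V (s n) w)) := by
  have hR0 : 0 < R := by linarith
  have hRinv : R⁻¹ < 1 := inv_lt_one_of_one_lt₀ hR
  have hr0 : 0 < r := by rw [hr]; linarith
  have hrR : r * R = R ^ 2 - 1 := by
    rw [hr]
    field_simp
  intro n
  induction n using Nat.strong_induction_on with
  | _ n ihn =>
    match n, ihn with
    | 0, _ =>
      intro w hw _
      have hw0 : w = [] := by
        cases w with
        | nil => rfl
        | cons a u => exact absurd (hw a (by simp)) (by omega)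
      subst hw0
      rw [V_nil, h.one]
      simp
    | n + 1, ihn =>
      intro w hw
      refine word_ind (Pr := fun w => (∀ a < n + 1, a ∈ w) → r ^ (n + 1) * R ^ w.length ≤
        R ^ (2 * (n + 1)) * aeval r (N (n + 1) (V (s (n + 1)) w))) ?_ ?_ ?_ ?_ w hw
      · intro u v e hv hf
        rw [h.V_eqv e, e.length_eq]
        exact hv fun a ha => (e.mem_iff a).1 (hf a ha)
      · intro x j y hb h1 h2 hf
        have hj : j < n + 1 := hb j (by simp)
        have hx : ∀ a ∈ x, a < n + 1 := fun a ha => hb a (by simp [ha])
        have hy : ∀ a ∈ y, a < n + 1 := fun a ha => hb a (by simp [ha])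
        have hxy : ∀ a ∈ x ++ y, a < n + 1 := by
          intro a ha
          rcases List.mem_append.1 ha with ha | ha
          · exact hx a ha
          · exact hy a ha
        have hpos := aeval_nonneg (h.pos (n + 1) (x ++ y) hxy) hr0.le
        rw [h.quad_word hj, map_add, map_mul, aeval_X]
        have hlen : (x ++ j :: j :: y).length = x.length + y.length + 2 := by
          simp only [List.length_append, List.length_cons]
          omega
        rw [hlen]
        by_cases hjm : j ∈ x ++ y
        · have hf' : ∀ a < n + 1, a ∈ x ++ y := by
            intro a ha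
            have h3 := hf a ha
            simp only [List.mem_append, List.mem_cons] at h3 hjm ⊢
            rcases h3 with h3 | rfl | rfl | h3
            · exact Or.inl h3
            · exact hjm
            · exact hjm
            · exact Or.inr h3
          have h3 := h1 hf'
          have h4 := h2 (by
            intro a ha
            have h5 := hf' a ha
            simp only [List.mem_append, List.mem_cons] at h5 ⊢
            tauto)
          have l1 : (x ++ y).length = x.length + y.length := List.length_append
          have l2 : (x ++ j :: y).length = x.length + y.length + 1 := by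
            simp only [List.length_append, List.length_cons]
            omega
          rw [l1] at h3
          rw [l2] at h4
          have h5 := mul_le_mul_of_nonneg_left h4 hr0.le
          have e : r ^ (n + 1) * R ^ (x.length + y.length + 2) =
              r ^ (n + 1) * R ^ (x.length + y.length) + r * (r ^ (n + 1) * R ^ (x.length + y.length + 1)) := by
            have : R ^ 2 = 1 + r * R := by linarith
            rw [pow_add R _ 2, this]
            ring
          rw [e, mul_add]
          have e2 : r * (R ^ (2 * (n + 1)) * aeval r (N (n + 1) (V (s (n + 1)) (x ++ j :: y)))) =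
              R ^ (2 * (n + 1)) * (r * aeval r (N (n + 1) (V (s (n + 1)) (x ++ j :: y)))) := by ring
          rw [← e2]
          linarith
        · -- the letter `j` disappears
          simp only [List.mem_append, not_or] at hjm
          obtain ⟨u, B, hu, hB, hl, hfu, hfB, heq⟩ := single h hj
            (x := x) (y := y) (fun a ha => ⟨hx a ha, fun e => hjm.1 (e ▸ ha)⟩)
            (fun a ha => ⟨hy a ha, fun e => hjm.2 (e ▸ ha)⟩)
          rw [heq, map_mul]
          have hn1 : n + 1 - 1 - j = n - j := by omega
          rw [hn1] at hB hfB ⊢
          have hmem : ∀ a < n + 1, a ≠ j → a ∈ x ∨ a ∈ y := by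
            intro a ha haj
            have h3 := hf a ha
            simp only [List.mem_append, List.mem_cons] at h3
            rcases h3 with h3 | h3 | h3 | h3
            · exact Or.inl h3
            · exact absurd h3 haj
            · exact absurd h3 haj
            · exact Or.inr h3
          have h3 := ihn j (by omega) u hu fun a ha => hfu a ha (hmem a (by omega) (by omega))
          have h4 := ihn (n - j) (by omega) B hB fun b hb => hfB b hb (hmem _ (by omega) (by omega))
          obtain ⟨A, hA⟩ : ∃ A, A = aeval r (N j (V (s j) u)) := ⟨_, rfl⟩
          obtain ⟨D, hD⟩ : ∃ D, D = aeval r (N (n - j) (V (s (n - j)) B)) := ⟨_, rfl⟩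
          rw [← hA] at h3
          rw [← hD] at h4
          rw [← hA, ← hD]
          have h5 : (r ^ j * R ^ u.length) * (r ^ (n - j) * R ^ B.length) ≤
              (R ^ (2 * j) * A) * (R ^ (2 * (n - j)) * D) :=
            mul_le_mul h3 h4 (by positivity) ((by positivity : (0:ℝ) ≤ r ^ j * R ^ u.length).trans h3)
          have e1 : (r ^ j * R ^ u.length) * (r ^ (n - j) * R ^ B.length) = r ^ n * R ^ (x.length + y.length) := by
            have : n = j + (n - j) := by omega
            conv_rhs => rw [this]
            rw [← hl, pow_add, pow_add]
            ring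
          have e2 : (R ^ (2 * j) * A) * (R ^ (2 * (n - j)) * D) = R ^ (2 * n) * (D * A) := by
            have : 2 * n = 2 * j + 2 * (n - j) := by omega
            rw [this, pow_add]
            ring
          rw [e1, e2] at h5
          have h6 := mul_le_mul_of_nonneg_left h5 (mul_nonneg hr0.le (sq_nonneg R))
          have e3 : r ^ (n + 1) * R ^ (x.length + y.length + 2) = r * R ^ 2 * (r ^ n * R ^ (x.length + y.length)) := by
            ring
          have e4 : R ^ (2 * (n + 1)) * (r * (D * A)) = r * R ^ 2 * (R ^ (2 * n) * (D * A)) := by ring
          have h7 : 0 ≤ R ^ (2 * (n + 1)) * aeval r (N (n + 1) (V (s (n + 1)) (x ++ y))) := by positivity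
          rw [mul_add, e3, e4]
          linarith
      · intro u hu hf
        exact absurd (hu n (hf n (by omega))) (by omega)
      · intro u v hu hv hf
        rw [h.destab hu hv]
        have huv : ∀ a ∈ u ++ v, a < n := by
          intro a ha
          rcases List.mem_append.1 ha with ha | ha
          · exact hu a ha
          · exact hv a ha
        have h1 := ihn n (by omega) (u ++ v) huv (by
          intro a ha
          have h2 := hf a (by omega)
          simp only [List.mem_append, List.mem_cons] at h2 ⊢
          rcases h2 with h2 | h2 | h2
          · exact Or.inl h2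
          · omega
          · exact Or.inr h2)
        have hpos := aeval_nonneg (h.pos n (u ++ v) huv) hr0.le
        obtain ⟨A, hA⟩ : ∃ A, A = aeval r (N n (V (s n) (u ++ v))) := ⟨_, rfl⟩
        rw [← hA] at h1 hpos ⊢
        have l1 : (u ++ n :: v).length = (u ++ v).length + 1 := by
          simp only [List.length_append, List.length_cons]
          omega
        rw [l1]
        have h2 : r * R ≤ R ^ 2 := by rw [hrR]; linarith
        have h3 : 0 ≤ R ^ (2 * n) * A := by positivity
        calc r ^ (n + 1) * R ^ ((u ++ v).length + 1) = (r * R) * (r ^ n * R ^ (u ++ v).length) := by ring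
          _ ≤ (r * R) * (R ^ (2 * n) * A) := mul_le_mul_of_nonneg_left h1 (by positivity)
          _ ≤ R ^ 2 * (R ^ (2 * n) * A) := mul_le_mul_of_nonneg_right h2 h3
          _ = R ^ (2 * (n + 1)) * A := by ring

end words

end Pool.Agent.Helper7.UNI
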