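import Pool.Agent.Helper76.Conway.TopMk

/-!
# The product formula: a letter which occurs once

`Mk.prod`: a positive word in which the letter `j` occurs once has the value (part above `j`) * (part below `j`).
-/

set_option autoImplicit false

namespace Pool.Agent.Helper7.UNI

open Polynomial Pool.Agent.Helper76.Conway.Top

/-- shifted braid relations -/
theorem eqv_shift {m : ℕ} {u v : List ℕ} (h : Eqv m u v) (c : ℕ) :
    Eqv (c + m) (u.map fun a => a + c) (v.map fun a => a + c) := by
  induction h with
  | refl w => exact Eqv.refl _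
  | trans _ _ ih ih' => exact Eqv.trans ih ih'
  | symm _ ih => exact Eqv.symm ih
  | comm x y a b hab hb =>
    simp only [List.map_append, List.map_cons]
    exact Eqv.comm _ _ _ _ (by omega) (by omega)
  | braid x y j hj =>
    simp only [List.map_append, List.map_cons]
    rw [show j + 1 + c = j + c + 1 by omega]
    exact Eqv.braid _ _ _ (by omega)

section words

variable {G : ℕ → Type} [∀ n, Group (G n)] {s : ∀ n, ℕ → G n} {N : ∀ n, G n → ℤ[X]}

theorem prod_aux (h : Mk G s N) (j : ℕ) (u : List ℕ) (hu : ∀ a ∈ u, a < j) : ∀ (m : ℕ) (B : List ℕ),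
    (∀ b ∈ B, b < m) →
    N (j + 1 + m) (V (s (j + 1 + m)) ((B.map fun a => a + (j + 1)) ++ j :: u)) =
      N m (V (s m) B) * N j (V (s j) u) := by
  intro m
  induction m with
  | zero =>
    intro B hB
    have hB0 : B = [] := by
      cases B with
      | nil => rfl
      | cons a u => exact absurd (hB a (by simp)) (by omega)
    subst hB0
    rw [V_nil, h.one, one_mul, List.map_nil]
    exact h.destab (u := []) (by simp) hu
  | succ m ih =>
    intro B hB
    refine word_ind (Pr := fun B => N (j + 1 + (m + 1)) (V (s (j + 1 + (m + 1)))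
      ((B.map fun a => a + (j + 1)) ++ j :: u)) = N (m + 1) (V (s (m + 1)) B) * N j (V (s j) u))
      ?_ ?_ ?_ ?_ B hB
    · intro B B' e hB'
      have e1 := (eqv_shift e (j + 1)).ctx [] (j :: u)
      rw [List.nil_append, List.nil_append] at e1
      rw [h.V_eqv e1, h.V_eqv e]
      exact hB'
    · intro x i y hb h1 h2
      have hi := hb i (by simp)
      rw [h.quad_word hi, add_mul, mul_assoc, ← h1, ← h2]
      simp only [List.map_append, List.map_cons, List.append_assoc, List.cons_append]
      exact h.quad_word (by omega) _ _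
    · intro B hB
      have e1 := h.top_zero (n := m) (u := B) hB
      have e2 := h.top_zero (n := j + 1 + m) (u := (B.map fun a => a + (j + 1)) ++ j :: u) (by
        intro a ha
        simp only [List.mem_append, List.mem_map, List.mem_cons] at ha
        rcases ha with ⟨b, hb, rfl⟩ | rfl | ha
        · have := hB b hb
          omega
        · omega
        · have := hu a ha
          omega)
      rw [e1, zero_mul]
      exact e2
    · intro x y hx hy
      rw [h.destab hx hy, ← ih (x ++ y) (by
        intro a ha
        rcases List.mem_append.1 ha with ha | ha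
        · exact hx a ha
        · exact hy a ha)]
      have hsh : ∀ z : List ℕ, (∀ a ∈ z, a < m) → ∀ a ∈ z.map fun a => a + (j + 1), a < j + 1 + m := by
        intro z hz a ha
        rw [List.mem_map] at ha
        obtain ⟨b, hb, rfl⟩ := ha
        have := hz b hb
        omega
      have e3 := h.destab (n := j + 1 + m) (u := x.map fun a => a + (j + 1))
        (v := (y.map fun a => a + (j + 1)) ++ j :: u) (hsh x hx) (by
          intro a ha
          rcases List.mem_append.1 ha with ha | ha
          · exact hsh y hy a ha
          · rcases List.mem_cons.1 ha with rfl | ha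
            · omega
            · have := hu a ha
              omega)
      simp only [List.map_append, List.map_cons, List.append_assoc, List.cons_append]
      rw [show m + (j + 1) = j + 1 + m by omega]
      exact e3

/-- separation of the letters above and below `j` -/
theorem V_split (h : Mk G s N) {n j : ℕ} : ∀ l : List ℕ, (∀ a ∈ l, a < n ∧ a ≠ j) →
    V (s n) l = V (s n) (l.filter fun a => decide (j < a)) * V (s n) (l.filter fun a => decide (a < j)) := by
  intro l
  induction l with
  | nil => intro _; simp
  | cons a l ih =>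
    intro hl
    have ha := hl a (by simp)
    have hl' : ∀ b ∈ l, b < n ∧ b ≠ j := fun b hb => hl b (List.mem_cons_of_mem _ hb)
    rcases lt_or_gt_of_ne ha.2 with haj | haj
    · rw [V_cons, ih hl', List.filter_cons_of_neg (by simp; omega), List.filter_cons_of_pos (by simpa using haj), V_cons,
        ← mul_assoc, ← mul_assoc, h.comm_V ha.1]
      intro b hb
      rw [List.mem_filter] at hb
      have hb2 : j < b := by simpa using hb.2
      exact ⟨(hl' b hb.1).1, Or.inr (by omega)⟩
    · rw [V_cons, ih hl', List.filter_cons_of_pos (by simpa using haj), List.filter_cons_of_neg (by simp; omega), V_cons,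
        mul_assoc]

theorem filter_len {j : ℕ} : ∀ l : List ℕ, (∀ a ∈ l, a ≠ j) →
    (l.filter fun a => decide (j < a)).length + (l.filter fun a => decide (a < j)).length = l.length := by
  intro l
  induction l with
  | nil => intro _; simp
  | cons a l ih =>
    intro hl
    have ha := hl a (by simp)
    have h1 := ih fun b hb => hl b (List.mem_cons_of_mem _ hb)
    rcases lt_or_gt_of_ne ha with haj | haj
    · rw [List.filter_cons_of_neg (by simp; omega), List.filter_cons_of_pos (by simpa using haj), List.length_cons,
        List.length_cons]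
      omega
    · rw [List.filter_cons_of_pos (by simpa using haj), List.filter_cons_of_neg (by simp; omega), List.length_cons,
        List.length_cons]
      omega

/-- **A letter which occurs once**: the value is a product. -/
theorem single (h : Mk G s N) {n j : ℕ} (hj : j < n) {x y : List ℕ} (hx : ∀ a ∈ x, a < n ∧ a ≠ j)
    (hy : ∀ a ∈ y, a < n ∧ a ≠ j) :
    ∃ u B : List ℕ, (∀ a ∈ u, a < j) ∧ (∀ b ∈ B, b < n - 1 - j) ∧
      u.length + B.length = x.length + y.length ∧ (∀ a < j, (a ∈ x ∨ a ∈ y) → a ∈ u) ∧
      (∀ b < n - 1 - j, (b + (j + 1) ∈ x ∨ b + (j + 1) ∈ y) → b ∈ B) ∧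
      N n (V (s n) (x ++ j :: y)) = N (n - 1 - j) (V (s (n - 1 - j)) B) * N j (V (s j) u) := by
  obtain ⟨xh, hxh⟩ : ∃ xh, xh = x.filter fun a => decide (j < a) := ⟨_, rfl⟩
  obtain ⟨xl, hxl⟩ : ∃ xl, xl = x.filter fun a => decide (a < j) := ⟨_, rfl⟩
  obtain ⟨yh, hyh⟩ : ∃ yh, yh = y.filter fun a => decide (j < a) := ⟨_, rfl⟩
  obtain ⟨yl, hyl⟩ : ∃ yl, yl = y.filter fun a => decide (a < j) := ⟨_, rfl⟩
  have mxh : ∀ a, a ∈ xh ↔ a ∈ x ∧ j < a := fun a => by rw [hxh, List.mem_filter]; simp
  have mxl : ∀ a, a ∈ xl ↔ a ∈ x ∧ a < j := fun a => by rw [hxl, List.mem_filter]; simp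
  have myh : ∀ a, a ∈ yh ↔ a ∈ y ∧ j < a := fun a => by rw [hyh, List.mem_filter]; simp
  have myl : ∀ a, a ∈ yl ↔ a ∈ y ∧ a < j := fun a => by rw [hyl, List.mem_filter]; simp
  have lx := filter_len (j := j) x fun a ha => (hx a ha).2
  have ly := filter_len (j := j) y fun a ha => (hy a ha).2
  rw [← hxh, ← hxl] at lx
  rw [← hyh, ← hyl] at ly
  have hsub : ∀ b ∈ yh ++ xh, j < b ∧ b < n := by
    intro b hb
    rcases List.mem_append.1 hb with hb | hb
    · rw [myh] at hb
      exact ⟨hb.2, (hy b hb.1).1⟩
    · rw [mxh] at hb
      exact ⟨hb.2, (hx b hb.1).1⟩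
  have hun : ((yh ++ xh).map fun a => a - (j + 1)).map (fun a => a + (j + 1)) = yh ++ xh := by
    rw [List.map_map]
    conv_rhs => rw [← List.map_id (yh ++ xh)]
    apply List.map_congr_left
    intro b hb
    have := hsub b hb
    simp only [Function.comp_apply, id]
    omega
  have hulow : ∀ a ∈ yl ++ xl, a < j := by
    intro a ha
    rcases List.mem_append.1 ha with ha | ha
    · exact ((myl a).1 ha).2
    · exact ((mxl a).1 ha).2
  have hBm : ∀ b ∈ (yh ++ xh).map (fun a => a - (j + 1)), b < n - 1 - j := by
    intro b hb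
    rw [List.mem_map] at hb
    obtain ⟨c, hc, rfl⟩ := hb
    have := hsub c hc
    omega
  refine ⟨yl ++ xl, (yh ++ xh).map fun a => a - (j + 1), hulow, hBm, ?_, ?_, ?_, ?_⟩
  · simp only [List.length_append, List.length_map]
    omega
  · intro a ha hm
    rw [List.mem_append, myl, mxl]
    rcases hm with hm | hm
    · exact Or.inr ⟨hm, ha⟩
    · exact Or.inl ⟨hm, ha⟩
  · intro b hb hm
    rw [List.mem_map]
    refine ⟨b + (j + 1), ?_, by omega⟩
    rw [List.mem_append, myh, mxh]
    rcases hm with hm | hm
    · exact Or.inr ⟨hm, by omega⟩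
    · exact Or.inl ⟨hm, by omega⟩
  · have key := prod_aux h j (yl ++ xl) hulow (n - 1 - j) ((yh ++ xh).map fun a => a - (j + 1)) hBm
    rw [hun, show j + 1 + (n - 1 - j) = n by omega] at key
    rw [← key]
    have c1 : V (s n) xl * V (s n) xh = V (s n) xh * V (s n) xl := h.comm_VV
      (fun a ha => (hx a ((mxl a).1 ha).1).1) (fun a ha => (hx a ((mxh a).1 ha).1).1)
      fun a ha b hb => by have := (mxl a).1 ha; have := (mxh b).1 hb; omega
    have c2 : V (s n) yl * V (s n) yh = V (s n) yh * V (s n) yl := h.comm_VV
      (fun a ha => (hy a ((myl a).1 ha).1).1) (fun a ha => (hy a ((myh a).1 ha).1).1)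
      fun a ha b hb => by have := (myl a).1 ha; have := (myh b).1 hb; omega
    have c3 : V (s n) xl * V (s n) yh = V (s n) yh * V (s n) xl := h.comm_VV
      (fun a ha => (hx a ((mxl a).1 ha).1).1) (fun a ha => (hy a ((myh a).1 ha).1).1)
      fun a ha b hb => by have := (mxl a).1 ha; have := (myh b).1 hb; omega
    rw [V_append, V_cons, V_split h x hx, V_split h y hy, ← hxh, ← hxl, ← hyh, ← hyl]
    simp only [V_append, V_cons]
    calc N n (V (s n) xh * V (s n) xl * (s n j * (V (s n) yh * V (s n) yl)))
        = N n ((V (s n) xl * V (s n) xh * s n j * V (s n) yl) * V (s n) yh) := by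
          rw [← c1, ← c2]
          congr 1
          simp only [mul_assoc]
      _ = N n (V (s n) yh * (V (s n) xl * V (s n) xh * s n j * V (s n) yl)) := h.conj n _ _
      _ = N n (V (s n) xl * (V (s n) yh * V (s n) xh * s n j * V (s n) yl)) := by
          congr 1
          rw [← mul_assoc, ← mul_assoc, ← mul_assoc, ← c3]
          simp only [mul_assoc]
      _ = N n ((V (s n) yh * V (s n) xh * s n j * V (s n) yl) * V (s n) xl) := h.conj n _ _
      _ = N n (V (s n) yh * V (s n) xh * (s n j * (V (s n) yl * V (s n) xl))) := by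
          congr 1
          simp only [mul_assoc]

end words

end Pool.Agent.Helper7.UNI
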